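import Pool.Agent.Helper97.Tate.Goals
import Pool.Agent.Helper87.FewP.PSL

/-!
Project FewPoints (MP_d3128a_ag), packet TATE-CFM: product formula for the coefficients.
-/

set_option autoImplicit false

namespace Pool.Agent.Helper15.Tate.CFM

open Pool.Agent.Helper97.Tate

noncomputable section

variable {k : Type} [Field k]

theorem cf_neg (f : SS k) {N : ℤ} (h : N < 0) (n : ℤ) : cf f N n = 0 := by
  unfold cf
  rw [if_neg (not_le.2 h)]

theorem cf_nat (f : SS k) (e : ℕ) (n : ℤ) :
    cf f e n = (PowerSeries.coeff e f : LaurentPolynomial k).coeff n := by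
  unfold cf
  rw [if_pos (Int.natCast_nonneg e)]
  rfl

open Classical in
/-- the set of the terms. -/
def St (f : SS k) (e : ℕ) : Finset (ℤ × ℤ) :=
  (Finset.range (e + 1)).biUnion fun i =>
    (PowerSeries.coeff i f : LaurentPolynomial k).coeff.support.image fun a => ((i : ℤ), a)

theorem term_zero (f g : SS k) (e : ℕ) (n : ℤ) (p : ℤ × ℤ) (hp : p ∉ St f e) :
    cf f p.1 p.2 * cf g ((e : ℤ) - p.1) (n - p.2) = 0 := by
  by_cases h0 : p.1 < 0
  · rw [cf_neg f h0, zero_mul]
  · by_cases h1 : (e : ℤ) - p.1 < 0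
    · rw [cf_neg g h1, mul_zero]
    · obtain ⟨i, hi⟩ := Int.eq_ofNat_of_zero_le (not_lt.1 h0)
      have h2 : cf f p.1 p.2 = 0 := by
        rw [hi, cf_nat]
        by_contra hne
        apply hp
        unfold St
        rw [Finset.mem_biUnion]
        refine ⟨i, ?_, ?_⟩
        · rw [Finset.mem_range]
          omega
        · rw [Finset.mem_image]
          exact ⟨p.2, Finsupp.mem_support_iff.2 hne, Prod.ext hi.symm rfl⟩
      rw [h2, zero_mul]

theorem coeff_eq (f g : SS k) (e : ℕ) (n : ℤ) :
    cf (f * g) e n = ∑ p ∈ St f e, cf f p.1 p.2 * cf g ((e : ℤ) - p.1) (n - p.2) := by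
  classical
  rw [cf_nat]
  have h1 := Pool.Agent.Helper87.FewP.coeff_formula (F := k) (Δ := ℤ) f g e n
  have h3 := Finset.Nat.sum_antidiagonal_eq_sum_range_succ (fun i j =>
    ∑ m₁ ∈ (PowerSeries.coeff i f : LaurentPolynomial k).coeff.support,
        ∑ m₂ ∈ (PowerSeries.coeff j g : LaurentPolynomial k).coeff.support,
          if m₁ + m₂ = n then (PowerSeries.coeff i f : LaurentPolynomial k).coeff m₁ *
            (PowerSeries.coeff j g : LaurentPolynomial k).coeff m₂ else 0) e
  refine (h1.trans ?_).trans (h3.trans ?_)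
  · refine Finset.sum_congr rfl fun p _ => Finset.sum_congr rfl fun a _ =>
      Finset.sum_congr rfl fun b _ => ?_
    by_cases h : a + b = n
    · rw [if_pos h, if_pos h]
    · rw [if_neg h, if_neg h]
  unfold St
  rw [Finset.sum_biUnion]
  · refine Finset.sum_congr rfl fun i hi => ?_
    have hie : i ≤ e := Nat.lt_succ_iff.1 (Finset.mem_range.1 hi)
    rw [Finset.sum_image]
    · refine Finset.sum_congr rfl fun a _ => ?_
      have h2 : ((e : ℤ) - (i : ℤ)) = ((e - i : ℕ) : ℤ) := by omega
      change _ = cf f (i : ℤ) a * cf g ((e : ℤ) - (i : ℤ)) (n - a)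
      rw [h2, cf_nat, cf_nat]
      rw [Finset.sum_eq_single (n - a)]
      · rw [if_pos (by omega)]
      · intro b _ hb
        rw [if_neg]
        intro h
        apply hb
        omega
      · intro h
        rw [Finsupp.notMem_support_iff] at h
        rw [if_pos (by omega), h, mul_zero]
    · intro a _ b _ h
      exact congrArg Prod.snd h
  · intro i _ j _ hij
    rw [Function.onFun, Finset.disjoint_left]
    intro p hp hq
    rw [Finset.mem_image] at hp hq
    obtain ⟨a, _, ha⟩ := hp
    obtain ⟨b, _, hb⟩ := hq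
    rw [← hb] at ha
    apply hij
    have := congrArg Prod.fst ha
    simpa using this

theorem t : S_CFM := by
  intro k _ f g N n
  by_cases hN : N < 0
  · have h0 : ∀ p : ℤ × ℤ, cf f p.1 p.2 * cf g (N - p.1) (n - p.2) = 0 := by
      intro p
      by_cases h1 : p.1 < 0
      · rw [cf_neg f h1, zero_mul]
      · rw [cf_neg g (by omega), mul_zero]
    constructor
    · have h2 : {p : ℤ × ℤ | cf f p.1 p.2 * cf g (N - p.1) (n - p.2) ≠ 0} = ∅ := by
        ext p
        simp only [Set.mem_ofPred_eq, Set.mem_empty_iff_false, iff_false, not_not]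
        exact h0 p
      rw [h2]
      exact Set.finite_empty
    · rw [cf_neg _ hN, finsum_congr h0, finsum_zero]
  · obtain ⟨e, rfl⟩ := Int.eq_ofNat_of_zero_le (not_lt.1 hN)
    have hsub : {p : ℤ × ℤ | cf f p.1 p.2 * cf g ((e : ℤ) - p.1) (n - p.2) ≠ 0} ⊆
        (St f e : Set (ℤ × ℤ)) := by
      intro p hp
      by_contra hn
      exact hp (term_zero f g e n p hn)
    refine ⟨(Finset.finite_toSet _).subset hsub, ?_⟩
    rw [coeff_eq]
    exact (finsum_eq_sum_of_support_subset _ hsub).symm

end

end Pool.Agent.Helper15.Tate.CFM
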