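import Pool.Agent.Helper97.Tate.Goals

/-!
Project FewPoints (MP_d3128a_ag), packet TATE-EXP: expansion in `ε` of the deformed germ.
-/

set_option autoImplicit false

namespace Pool.Agent.Helper15.Tate.EXP

open Pool.Agent.Helper97.Tate

noncomputable section

variable {K : Type} [Field K]

/-- the images of the variables, polynomials in `e` over `K⟦s⟧[t]`. -/
def im (f : Fin 3 → PowerSeries K) (v : PowerSeries K) :
    Fin 3 → Polynomial (Polynomial (PowerSeries K)) :=
  ![Polynomial.C (Polynomial.C (f 0)) +
      Polynomial.X * Polynomial.C (Polynomial.C v * (1 + Polynomial.X)),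
    Polynomial.C (Polynomial.C (f 1)), Polynomial.C (Polynomial.C (f 2))]

/-- the generic deformation. -/
def Psi (f : Fin 3 → PowerSeries K) (v : PowerSeries K) :
    MvPolynomial (Fin 3) K →ₐ[K] Polynomial (Polynomial (PowerSeries K)) :=
  MvPolynomial.aeval (im f v)

theorem Psi_X (f : Fin 3 → PowerSeries K) (v : PowerSeries K) (i : Fin 3) :
    Psi f v (MvPolynomial.X i) = im f v i := MvPolynomial.aeval_X _ _

/-- evaluation at `e = ε`. -/
def ev (ε : K) : Polynomial (Polynomial (PowerSeries K)) →ₐ[K] Polynomial (PowerSeries K) :=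
  (Polynomial.aeval (algebraMap K (Polynomial (PowerSeries K)) ε)).restrictScalars K

theorem ev_apply (ε : K) (p : Polynomial (Polynomial (PowerSeries K))) :
    ev ε p = p.eval (algebraMap K (Polynomial (PowerSeries K)) ε) := by
  rw [ev, AlgHom.restrictScalars_apply, Polynomial.coe_aeval_eq_eval]

theorem algMap (ε : K) : algebraMap K (Polynomial (PowerSeries K)) ε =
    Polynomial.C (PowerSeries.C ε) := rfl

theorem ev_Psi (f : Fin 3 → PowerSeries K) (v : PowerSeries K) (ε : K)
    (z : MvPolynomial (Fin 3) K) : ev ε (Psi f v z) = tst f v ε z := by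
  have h : (ev ε).comp (Psi f v) = tst f v ε := by
    apply MvPolynomial.algHom_ext
    intro i
    rw [AlgHom.comp_apply, Psi_X, ev_apply, tst, MvPolynomial.aeval_X, algMap]
    fin_cases i
    · simp only [im]
      simp
      ring
    · simp [im]
    · simp [im]
  rw [← h]
  rfl

theorem im_deg (f : Fin 3 → PowerSeries K) (v : PowerSeries K) (i : Fin 3) :
    (im f v i).natDegree ≤ 1 := by
  fin_cases i
  · change (Polynomial.C (Polynomial.C (f 0)) +
      Polynomial.X * Polynomial.C (Polynomial.C v * (1 + Polynomial.X))).natDegree ≤ 1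
    refine (Polynomial.natDegree_add_le _ _).trans (max_le (by simp) ?_)
    refine Polynomial.natDegree_mul_le.trans ?_
    rw [Polynomial.natDegree_C, Polynomial.natDegree_X]
  · change (Polynomial.C (Polynomial.C (f 1))).natDegree ≤ 1
    simp
  · change (Polynomial.C (Polynomial.C (f 2))).natDegree ≤ 1
    simp

theorem Psi_deg (f : Fin 3 → PowerSeries K) (v : PowerSeries K) (z : MvPolynomial (Fin 3) K) :
    (Psi f v z).natDegree ≤ z.totalDegree := by
  conv_lhs => rw [z.as_sum]
  rw [map_sum]
  apply Polynomial.natDegree_sum_le_of_forall_le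
  intro d hd
  rw [Psi, MvPolynomial.aeval_monomial]
  refine Polynomial.natDegree_mul_le.trans ?_
  have h1 : (algebraMap K (Polynomial (Polynomial (PowerSeries K)))
      (MvPolynomial.coeff d z)).natDegree = 0 := by
    change (Polynomial.C (algebraMap K (Polynomial (PowerSeries K)) _)).natDegree = 0
    exact Polynomial.natDegree_C _
  rw [h1, zero_add, Finsupp.prod]
  refine (Polynomial.natDegree_prod_le _ _).trans ?_
  refine le_trans (Finset.sum_le_sum fun i _ => ?_) (MvPolynomial.le_totalDegree hd)
  refine Polynomial.natDegree_pow_le.trans ?_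
  calc d i * (im f v i).natDegree ≤ d i * 1 := Nat.mul_le_mul_left _ (im_deg f v i)
    _ = d i := mul_one _

theorem Psi_coeff_zero (f : Fin 3 → PowerSeries K) (v : PowerSeries K)
    (z : MvPolynomial (Fin 3) K) :
    (Psi f v z).coeff 0 = Polynomial.C (MvPolynomial.aeval f z) := by
  induction z using MvPolynomial.induction_on with
  | C a =>
    rw [MvPolynomial.algHom_C, MvPolynomial.algHom_C]
    change (Polynomial.C (algebraMap K (Polynomial (PowerSeries K)) a)).coeff 0 = _
    rw [Polynomial.coeff_C_zero]
    rfl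
  | add p q hp hq => rw [map_add, map_add, Polynomial.coeff_add, hp, hq, map_add]
  | mul_X p i hp =>
    rw [map_mul, map_mul, Polynomial.mul_coeff_zero, hp, map_mul, Psi_X, MvPolynomial.aeval_X]
    congr 1
    fin_cases i
    · simp [im]
    · simp [im]
    · simp [im]

theorem Psi_coeff_one (f : Fin 3 → PowerSeries K) (v : PowerSeries K)
    (z : MvPolynomial (Fin 3) K) :
    (Psi f v z).coeff 1 = Polynomial.C v * (1 + Polynomial.X) *
      Polynomial.C (MvPolynomial.aeval f (MvPolynomial.pderiv 0 z)) := by
  induction z using MvPolynomial.induction_on with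
  | C a =>
    rw [MvPolynomial.algHom_C, MvPolynomial.pderiv_C, map_zero, map_zero, mul_zero]
    change (Polynomial.C (algebraMap K (Polynomial (PowerSeries K)) a)).coeff 1 = _
    rw [Polynomial.coeff_C_ne_zero one_ne_zero]
  | add p q hp hq =>
    rw [map_add, Polynomial.coeff_add, hp, hq, map_add, map_add, map_add]
    ring
  | mul_X p i hp =>
    rw [map_mul, Polynomial.mul_coeff_one, hp, Psi_coeff_zero, Psi_X, Derivation.leibniz,
      smul_eq_mul, smul_eq_mul, map_add, map_mul, map_mul, MvPolynomial.aeval_X]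
    fin_cases i
    · have h1 : (im f v 0).coeff 1 = Polynomial.C v * (1 + Polynomial.X) := by
        simp [im, Polynomial.coeff_C]
      have h0 : (im f v 0).coeff 0 = Polynomial.C (f 0) := by simp [im]
      change Polynomial.C (MvPolynomial.aeval f p) * (im f v 0).coeff 1 +
        _ * (im f v 0).coeff 0 = _
      rw [h1, h0]
      change _ = Polynomial.C v * (1 + Polynomial.X) * Polynomial.C (MvPolynomial.aeval f p *
        MvPolynomial.aeval f (MvPolynomial.pderiv 0 (MvPolynomial.X 0)) +
        f 0 * MvPolynomial.aeval f (MvPolynomial.pderiv 0 p))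
      rw [MvPolynomial.pderiv_X_self, map_one, mul_one, map_add, map_mul]
      ring
    · have h1 : (im f v 1).coeff 1 = 0 := by
        simp [im, Polynomial.coeff_C]
      have h0 : (im f v 1).coeff 0 = Polynomial.C (f 1) := by simp [im]
      change Polynomial.C (MvPolynomial.aeval f p) * (im f v 1).coeff 1 +
        _ * (im f v 1).coeff 0 = _
      rw [h1, h0]
      change _ = Polynomial.C v * (1 + Polynomial.X) * Polynomial.C (MvPolynomial.aeval f p *
        MvPolynomial.aeval f (MvPolynomial.pderiv 0 (MvPolynomial.X 1)) +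
        f 1 * MvPolynomial.aeval f (MvPolynomial.pderiv 0 p))
      rw [MvPolynomial.pderiv_X_of_ne (by decide)]
      simp only [map_zero, mul_zero, zero_add, map_mul]
      ring
    · have h1 : (im f v 2).coeff 1 = 0 := by
        simp [im, Polynomial.coeff_C]
      have h0 : (im f v 2).coeff 0 = Polynomial.C (f 2) := by simp [im]
      change Polynomial.C (MvPolynomial.aeval f p) * (im f v 2).coeff 1 +
        _ * (im f v 2).coeff 0 = _
      rw [h1, h0]
      change _ = Polynomial.C v * (1 + Polynomial.X) * Polynomial.C (MvPolynomial.aeval f p *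
        MvPolynomial.aeval f (MvPolynomial.pderiv 0 (MvPolynomial.X 2)) +
        f 2 * MvPolynomial.aeval f (MvPolynomial.pderiv 0 p))
      rw [MvPolynomial.pderiv_X_of_ne (by decide)]
      simp only [map_zero, mul_zero, zero_add, map_mul]
      ring

theorem t : S_EXP := by
  intro K _ g f v Θ Y hg0 hg1
  have hX : (Polynomial.X : Polynomial (Polynomial (PowerSeries K))) ∣ Psi f v g := by
    rw [Polynomial.X_dvd_iff, Psi_coeff_zero, hg0, map_zero]
  obtain ⟨γ, hγ⟩ := hX
  have hγ0 : γ.coeff 0 = Polynomial.C (PowerSeries.C Y * Θ) * (1 + Polynomial.X) := by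
    have h1 : (Psi f v g).coeff 1 = γ.coeff 0 := by
      rw [hγ]
      exact Polynomial.coeff_X_mul γ 0
    rw [← h1, Psi_coeff_one, ← hg1, map_mul]
    ring
  have hpow : ∀ (j : ℕ) (z : MvPolynomial (Fin 3) K),
      Psi f v (g ^ j * z) = Polynomial.X ^ j * (γ ^ j * Psi f v z) := by
    intro j z
    rw [map_mul, map_pow, hγ]
    ring
  refine ⟨fun i => ((Polynomial.lcoeff (Polynomial (PowerSeries K)) i).restrictScalars K) ∘ₗ
    (Psi f v).toLinearMap, ?_, ?_, ?_⟩
  · intro n z ε hz
    rw [← ev_Psi, ev_apply,
      Polynomial.eval_eq_sum_range' (lt_of_le_of_lt (Psi_deg f v z) hz)]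
    refine Finset.sum_congr rfl fun i _ => ?_
    rw [← map_pow, Algebra.smul_def, mul_comm]
    rfl
  · intro i j z hij
    change (Psi f v (g ^ j * z)).coeff i = 0
    rw [hpow, Polynomial.coeff_X_pow_mul', if_neg (by omega)]
  · intro j z
    change (Psi f v (g ^ j * z)).coeff j = _
    rw [hpow, Polynomial.coeff_X_pow_mul', if_pos le_rfl, Nat.sub_self, Polynomial.mul_coeff_zero,
      Psi_coeff_zero]
    have h2 : (γ ^ j).coeff 0 = (γ.coeff 0) ^ j := by
      rw [← Polynomial.constantCoeff_apply, map_pow, Polynomial.constantCoeff_apply]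
    have h3 : (Polynomial.C (PowerSeries.C Y * Θ) * (1 + Polynomial.X)) ^ j =
        Polynomial.C (PowerSeries.C (Y ^ j) * Θ ^ j) *
          (1 + Polynomial.X : Polynomial (PowerSeries K)) ^ j := by
      rw [(Commute.all _ _).mul_pow, ← map_pow, (Commute.all _ _).mul_pow, ← map_pow]
    rw [h2, hγ0, h3, map_mul Polynomial.C (PowerSeries.C (Y ^ j) * Θ ^ j)]
    ring

end

end Pool.Agent.Helper15.Tate.EXP
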